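import Mathlib

set_option autoImplicit false

/-!
MP_2f9829_co, module HALF: if the normalised inner product of rotations is the product of the
normalised inner products of their images under `K` maps, then all maps but one are constant.
-/

open Finset

namespace T5H

abbrev M3 : Type := Matrix (Fin 3) (Fin 3) ℝ

/-- Rotation matrices. -/
def SO (O : M3) : Prop := O * O.transpose = 1 ∧ O.det = 1

lemma SO.symm' {O : M3} (h : SO O) : O.transpose * O = 1 :=
  mul_eq_one_comm.mp h.1

lemma SO.tr {O : M3} (h : SO O) : SO O.transpose :=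
  ⟨by rw [Matrix.transpose_transpose]; exact h.symm', by rw [Matrix.det_transpose]; exact h.2⟩

lemma SO.mul {O P : M3} (h : SO O) (h' : SO P) : SO (O * P) := by
  refine ⟨?_, by rw [Matrix.det_mul, h.2, h'.2, one_mul]⟩
  rw [Matrix.transpose_mul]
  calc O * P * (P.transpose * O.transpose) = O * (P * P.transpose) * O.transpose := by
        simp only [Matrix.mul_assoc]
    _ = 1 := by rw [h'.1, Matrix.mul_one, h.1]

/-- Cayley-Hamilton for 3x3 matrices, with the adjugate. -/
lemma adj_eq (R : M3) : R.adjugate = R * R - R.trace • R + R.adjugate.trace • (1 : M3) := by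
  ext i j
  fin_cases i <;> fin_cases j <;>
    simp [Matrix.adjugate_fin_three, Matrix.trace_fin_three, Matrix.mul_apply,
      Fin.sum_univ_three] <;> ring

lemma SO.adj {R : M3} (h : SO R) : R.adjugate = R.transpose := by
  have h1 : R.adjugate * R = 1 := by rw [Matrix.adjugate_mul, h.2, one_smul]
  calc R.adjugate = R.adjugate * (R * R.transpose) := by rw [h.1, Matrix.mul_one]
    _ = R.transpose := by rw [← Matrix.mul_assoc, h1, Matrix.one_mul]

lemma SO.ch {R : M3} (h : SO R) :
    R.transpose = R * R - R.trace • R + R.trace • (1 : M3) := by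
  have h1 := adj_eq R
  rw [h.adj, Matrix.trace_transpose] at h1
  exact h1

/-- sum of squares of the entries -/
def fr (A : M3) : ℝ := (A.transpose * A).trace

lemma fr_eq (A : M3) : fr A = ∑ j, ∑ i, A i j ^ 2 := by
  simp only [fr, Matrix.trace, Matrix.diag, Matrix.mul_apply, Matrix.transpose_apply]
  exact Finset.sum_congr rfl fun j _ => Finset.sum_congr rfl fun i _ => by ring

lemma fr_nonneg (A : M3) : 0 ≤ fr A := by
  rw [fr_eq]; positivity

lemma fr_zero {A : M3} (h : fr A = 0) : A = 0 := by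
  rw [fr_eq] at h
  ext i j
  have h1 := (Finset.sum_eq_zero_iff_of_nonneg (fun j _ => by positivity)).mp h j (mem_univ _)
  have h2 := (Finset.sum_eq_zero_iff_of_nonneg (fun i _ => by positivity)).mp h1 i (mem_univ _)
  simpa using h2

lemma tr3 : (1 : M3).trace = 3 := by simp

lemma SO.sq_tr {R : M3} (h : SO R) : (R * R).trace = R.trace ^ 2 - 2 * R.trace := by
  have h1 := congrArg Matrix.trace h.ch
  rw [Matrix.trace_transpose, Matrix.trace_add, Matrix.trace_sub, Matrix.trace_smul,
    Matrix.trace_smul, tr3] at h1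
  simp only [smul_eq_mul] at h1
  linarith

lemma SO.fr_sub {R : M3} (h : SO R) : fr (R - 1) = 6 - 2 * R.trace := by
  have e : (R - 1).transpose * (R - 1) = 1 - R - R.transpose + 1 := by
    rw [Matrix.transpose_sub, Matrix.transpose_one, Matrix.sub_mul, Matrix.mul_sub, h.symm']
    simp only [Matrix.mul_sub, Matrix.mul_one, Matrix.one_mul]
    abel
  rw [fr, e, Matrix.trace_add, Matrix.trace_sub, Matrix.trace_sub, Matrix.trace_transpose, tr3]
  ring

lemma SO.fr_sub_tr {R : M3} (h : SO R) :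
    fr (R - R.transpose) = 6 - 2 * (R * R).trace := by
  have e : (R - R.transpose).transpose * (R - R.transpose) =
      1 - R.transpose * R.transpose - R * R + 1 := by
    rw [Matrix.transpose_sub, Matrix.transpose_transpose, Matrix.sub_mul, Matrix.mul_sub,
      Matrix.mul_sub, h.symm', h.1]
    abel
  have e2 : (R.transpose * R.transpose).trace = (R * R).trace := by
    rw [← Matrix.transpose_mul, Matrix.trace_transpose]
  rw [fr, e, Matrix.trace_add, Matrix.trace_sub, Matrix.trace_sub, e2, tr3]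
  ring

lemma SO.tr_le {R : M3} (h : SO R) : R.trace ≤ 3 := by
  have h1 := fr_nonneg (R - 1)
  rw [h.fr_sub] at h1; linarith

lemma SO.le_tr {R : M3} (h : SO R) : -1 ≤ R.trace := by
  have h1 := fr_nonneg (R - R.transpose)
  rw [h.fr_sub_tr, h.sq_tr] at h1
  nlinarith [h.tr_le]

lemma SO.eq_one {R : M3} (h : SO R) (ht : R.trace = 3) : R = 1 := by
  have h1 : fr (R - 1) = 0 := by rw [h.fr_sub, ht]; norm_num
  exact sub_eq_zero.mp (fr_zero h1)

lemma SO.eq_of {O P : M3} (hO : SO O) (hP : SO P) (ht : (O.transpose * P).trace = 3) : O = P := by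
  have h1 := (hO.tr.mul hP).eq_one ht
  calc O = O * (O.transpose * P) := by rw [h1, Matrix.mul_one]
    _ = P := by rw [← Matrix.mul_assoc, hO.1, Matrix.one_mul]

lemma SO.half_symm {R : M3} (h : SO R) (ht : R.trace = -1) : R.transpose = R := by
  have h1 : fr (R - R.transpose) = 0 := by rw [h.fr_sub_tr, h.sq_tr, ht]; norm_num
  exact (sub_eq_zero.mp (fr_zero h1)).symm

/-- square of the length -/
def nq (w : Fin 3 → ℝ) : ℝ := w 0 * w 0 + w 1 * w 1 + w 2 * w 2

lemma nq_pos {w : Fin 3 → ℝ} (h : w ≠ 0) : 0 < nq w := by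
  by_contra hc
  apply h
  have h0 := mul_self_nonneg (w 0)
  have h1 := mul_self_nonneg (w 1)
  have h2 := mul_self_nonneg (w 2)
  unfold nq at hc
  ext i
  fin_cases i
  · show w 0 = 0
    exact mul_self_eq_zero.mp (by linarith)
  · show w 1 = 0
    exact mul_self_eq_zero.mp (by linarith)
  · show w 2 = 0
    exact mul_self_eq_zero.mp (by linarith)

/-- The half turn about `w`. -/
noncomputable def hw (w : Fin 3 → ℝ) : M3 := (2 / nq w) • Matrix.vecMulVec w w - 1

lemma hw_tr {w : Fin 3 → ℝ} (h : w ≠ 0) : (hw w).trace = -1 := by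
  have h1 := nq_pos h
  rw [hw, Matrix.trace_sub, Matrix.trace_smul, tr3]
  have : (Matrix.vecMulVec w w).trace = nq w := by
    simp [dotProduct, Fin.sum_univ_three, nq]
  rw [this, smul_eq_mul]
  field_simp; norm_num

lemma hw_transpose (w : Fin 3 → ℝ) : (hw w).transpose = hw w := by
  rw [hw, Matrix.transpose_sub, Matrix.transpose_smul, Matrix.transpose_one,
    Matrix.transpose_vecMulVec]

lemma hw_SO {w : Fin 3 → ℝ} (h : w ≠ 0) : SO (hw w) := by
  have h1 := (nq_pos h).ne'
  have hV : Matrix.vecMulVec w w * Matrix.vecMulVec w w = nq w • Matrix.vecMulVec w w := by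
    ext i j
    simp only [Matrix.mul_apply, Matrix.smul_apply, smul_eq_mul,
      Matrix.vecMulVec_apply, Fin.sum_univ_three, nq]
    ring
  have hsq : hw w * (hw w).transpose = 1 := by
    rw [hw_transpose, hw, Matrix.sub_mul, Matrix.mul_sub, Matrix.smul_mul, Matrix.mul_smul, hV,
      Matrix.mul_one, Matrix.one_mul, smul_smul, smul_smul]
    have : 2 / nq w * (2 / nq w) * nq w = 2 / nq w + 2 / nq w := by field_simp; norm_num
    rw [this, add_smul]
    abel
  refine ⟨hsq, ?_⟩
  rw [hw, Matrix.det_fin_three]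
  simp only [Matrix.sub_apply, Matrix.smul_apply, smul_eq_mul, Matrix.vecMulVec_apply]
  simp
  field_simp
  simp only [nq]; ring

/-- trace of the product with a half turn -/
lemma tr_hw (R : M3) (w : Fin 3 → ℝ) :
    (R * hw w).trace = 2 / nq w * (w ⬝ᵥ (R.mulVec w)) - R.trace := by
  rw [hw, Matrix.mul_sub, Matrix.mul_one, Matrix.trace_sub, Matrix.mul_smul, Matrix.trace_smul,
    smul_eq_mul]
  congr 2
  simp [Matrix.trace_fin_three, Matrix.mul_apply, Matrix.vecMulVec_apply, dotProduct,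
    Matrix.mulVec, Fin.sum_univ_three]
  ring

lemma self_dot (w : Fin 3 → ℝ) : w ⬝ᵥ w = nq w := by
  simp [dotProduct, Fin.sum_univ_three, nq]

/-- Two rotations have a common half turn neighbour. -/
lemma common {R : M3} (h : SO R) : ∃ w : Fin 3 → ℝ, w ≠ 0 ∧ (R.transpose * hw w).trace = -1 := by
  set M : M3 := R + R.transpose - (R.trace - 1) • (1 : M3) with hM
  have hz : (R - 1) * M = 0 := by
    rw [hM]
    have e : (R - 1) * (R + R.transpose - (R.trace - 1) • (1 : M3)) =
        (R * R - R.trace • R + R.trace • (1 : M3)) - R.transpose := by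
      rw [Matrix.sub_mul, Matrix.mul_sub, Matrix.mul_add, h.1, Matrix.one_mul, Matrix.mul_smul,
        Matrix.mul_one, sub_smul, sub_smul, one_smul, one_smul]
      abel
    rw [e, ← h.ch, sub_self]
  have hdet : M.det = 0 := by
    by_contra hc
    have hu : IsUnit M.det := isUnit_iff_ne_zero.mpr hc
    have h1 : R - 1 = 0 := by
      calc R - 1 = (R - 1) * (M * M⁻¹) := by rw [Matrix.mul_nonsing_inv _ hu, Matrix.mul_one]
        _ = 0 := by rw [← Matrix.mul_assoc, hz, Matrix.zero_mul]
    have h2 : R = 1 := sub_eq_zero.mp h1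
    apply hc
    have h3 : M = 0 := by
      rw [hM, h2, Matrix.transpose_one, tr3]
      ext i j
      simp [Matrix.one_apply]
      split_ifs <;> norm_num
    rw [h3]; simp
  obtain ⟨w, hw0, hMw⟩ := Matrix.exists_mulVec_eq_zero_iff.mpr hdet
  refine ⟨w, hw0, ?_⟩
  have hp := (nq_pos hw0).ne'
  have h1 : w ⬝ᵥ (M.mulVec w) = 0 := by rw [hMw]; simp
  have h2 : w ⬝ᵥ (R.mulVec w) = w ⬝ᵥ (R.transpose.mulVec w) := by
    rw [Matrix.mulVec_transpose, dotProduct_comm w (Matrix.vecMul w R),
      ← Matrix.dotProduct_mulVec]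
  rw [hM, Matrix.sub_mulVec, Matrix.add_mulVec, Matrix.smul_mulVec, Matrix.one_mulVec,
    dotProduct_sub, dotProduct_add, h2, dotProduct_smul, self_dot, smul_eq_mul] at h1
  rw [tr_hw, Matrix.trace_transpose]
  have h3 : w ⬝ᵥ (R.transpose.mulVec w) = (R.trace - 1) * nq w / 2 := by linarith
  rw [h3]
  field_simp
  ring

/-- A rotation of trace `-1` is a half turn. -/
lemma is_half {R : M3} (h : SO R) (ht : R.trace = -1) :
    ∃ u : Fin 3 → ℝ, u ≠ 0 ∧ R = hw u := by
  have hs := h.half_symm ht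
  have hch := h.ch
  set N : M3 := R + 1 with hN
  have hsq : R * R = 1 := by
    have := h.1; rwa [hs] at this
  -- minors of `N`
  have hNN : N * N = (2 : ℝ) • N := by
    rw [hN, Matrix.add_mul, Matrix.mul_add, hsq, Matrix.one_mul, Matrix.mul_one]
    module
  have hNt : N.trace = 2 := by rw [hN, Matrix.trace_add, ht, tr3]; norm_num
  have hadj : N.adjugate = 0 := by
    have h1 := adj_eq N
    rw [hNN, hNt, sub_self, zero_add] at h1
    have h2 := congrArg Matrix.trace h1
    rw [Matrix.trace_smul, tr3, smul_eq_mul] at h2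
    have h3 : N.adjugate.trace = 0 := by linarith
    rw [h1, h3, zero_smul]
  have hNs : ∀ i j, N i j = N j i := fun i j => by
    have : N.transpose = N := by rw [hN, Matrix.transpose_add, Matrix.transpose_one, hs]
    exact congrFun (congrFun this j) i
  have hm := hadj
  rw [Matrix.adjugate_fin_three] at hm
  have m00 := congrFun (congrFun hm 0) 0
  have m01 := congrFun (congrFun hm 0) 1
  have m02 := congrFun (congrFun hm 0) 2
  have m11 := congrFun (congrFun hm 1) 1
  have m12 := congrFun (congrFun hm 1) 2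
  have m22 := congrFun (congrFun hm 2) 2
  simp at m00 m01 m02 m11 m12 m22
  have r10 : N 1 0 = N 0 1 := hNs 1 0
  have r20 : N 2 0 = N 0 2 := hNs 2 0
  have r21 : N 2 1 = N 1 2 := hNs 2 1
  rw [r21] at m00 m01
  rw [r20] at m11
  rw [r10] at m12 m22
  have key : ∀ i j k, N i i * N j k = N i j * N i k := by
    intro i j k
    fin_cases i <;> fin_cases j <;> fin_cases k <;> simp only [Fin.zero_eta, Fin.mk_one,
      Fin.reduceFinMk, r10, r20, r21] <;> linarith
  have hdiag : ∃ i, N i i ≠ 0 := by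
    by_contra hc
    push Not at hc
    rw [Matrix.trace_fin_three, hc 0, hc 1, hc 2] at hNt
    norm_num at hNt
  obtain ⟨i, hi⟩ := hdiag
  refine ⟨N i, fun hc => hi (by rw [hc]; rfl), ?_⟩
  have hnq : nq (N i) = 2 * N i i := by
    have := congrFun (congrFun hNN i) i
    rw [Matrix.mul_apply, Fin.sum_univ_three, Matrix.smul_apply, smul_eq_mul] at this
    rw [nq, ← this, hNs 0 i, hNs 1 i, hNs 2 i]
  have hR : R = N - 1 := by rw [hN]; abel
  rw [hR, hw, hnq]
  congr 1
  ext j k
  rw [Matrix.smul_apply, Matrix.vecMulVec_apply, smul_eq_mul, ← key i j k]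
  field_simp

/-- Two half turns commute with a third one. -/
lemma third {H H' : M3} (h : SO H) (ht : H.trace = -1) (h' : SO H') (ht' : H'.trace = -1) :
    ∃ w : Fin 3 → ℝ, w ≠ 0 ∧ (H.transpose * hw w).trace = -1 ∧
      (H'.transpose * hw w).trace = -1 := by
  obtain ⟨u, hu0, hu⟩ := is_half h ht
  obtain ⟨v, hv0, hv⟩ := is_half h' ht'
  obtain ⟨w, hw0, hww⟩ := Matrix.exists_mulVec_eq_zero_iff.mpr
    (show (Matrix.of ![u, v, 0] : M3).det = 0 by
      rw [Matrix.det_fin_three]; simp)
  have e1 : u ⬝ᵥ w = 0 := by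
    have := congrFun hww 0
    simpa [Matrix.mulVec, dotProduct, Fin.sum_univ_three] using this
  have e2 : v ⬝ᵥ w = 0 := by
    have := congrFun hww 1
    simpa [Matrix.mulVec, dotProduct, Fin.sum_univ_three] using this
  have main : ∀ x : Fin 3 → ℝ, x ≠ 0 → x ⬝ᵥ w = 0 → ((hw x).transpose * hw w).trace = -1 := by
    intro x hx hxw
    have hp := (nq_pos hw0).ne'
    rw [hw_transpose, tr_hw, hw_tr hx]
    have : w ⬝ᵥ (hw x).mulVec w = - nq w := by
      rw [hw, Matrix.sub_mulVec, Matrix.one_mulVec, Matrix.smul_mulVec]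
      have e3 : (Matrix.vecMulVec x x).mulVec w = 0 := by
        ext i
        have : (Matrix.vecMulVec x x).mulVec w i = x i * (x ⬝ᵥ w) := by
          simp [Matrix.mulVec, dotProduct, Matrix.vecMulVec_apply, Fin.sum_univ_three]; ring
        rw [this, hxw]; simp
      rw [e3, smul_zero, zero_sub, dotProduct_neg, self_dot]
    rw [this]
    field_simp
    norm_num
  exact ⟨w, hw0, by rw [hu]; exact main u hu0 e1, by rw [hv]; exact main v hv0 e2⟩

/-- neighbours -/
def E (O P : M3) : Prop := SO O ∧ SO P ∧ (O.transpose * P).trace = -1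

lemma E.symm {O P : M3} (h : E O P) : E P O := by
  refine ⟨h.2.1, h.1, ?_⟩
  have : P.transpose * O = (O.transpose * P).transpose := by
    rw [Matrix.transpose_mul, Matrix.transpose_transpose]
  rw [this, Matrix.trace_transpose]
  exact h.2.2

lemma E.of_hw {O : M3} (h : SO O) {w : Fin 3 → ℝ} (hw0 : w ≠ 0) : E O (O * hw w) := by
  refine ⟨h, h.mul (hw_SO hw0), ?_⟩
  rw [← Matrix.mul_assoc, h.symm', Matrix.one_mul]
  exact hw_tr hw0

lemma common' {O O' : M3} (h : SO O) (h' : SO O') : ∃ P, E O P ∧ E O' P := by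
  obtain ⟨w, hw0, hw1⟩ := common (h.tr.mul h')
  refine ⟨O * hw w, E.of_hw h hw0, h', h.mul (hw_SO hw0), ?_⟩
  rw [Matrix.transpose_mul, Matrix.transpose_transpose] at hw1
  rw [← Matrix.mul_assoc]
  exact hw1

lemma third' {O P P' : M3} (h : E O P) (h' : E O P') : ∃ Q, E O Q ∧ E P Q ∧ E P' Q := by
  obtain ⟨w, hw0, h1, h2⟩ := third (h.1.tr.mul h.2.1) h.2.2 (h.1.tr.mul h'.2.1) h'.2.2
  have hs := h.1.mul (hw_SO hw0)
  refine ⟨O * hw w, E.of_hw h.1 hw0, ⟨h.2.1, hs, ?_⟩, ⟨h'.2.1, hs, ?_⟩⟩
  · rw [Matrix.transpose_mul, Matrix.transpose_transpose] at h1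
    rw [← Matrix.mul_assoc]; exact h1
  · rw [Matrix.transpose_mul, Matrix.transpose_transpose] at h2
    rw [← Matrix.mul_assoc]; exact h2

/-- One factor `-1/3`, all others `1`. -/
lemma prod_third {K : ℕ} (t : Fin K → ℝ) (h1 : ∀ p, -(1 / 3) ≤ t p) (h2 : ∀ p, t p ≤ 1)
    (h : ∏ p, t p = -(1 / 3)) : ∃ p, t p < 1 ∧ ∀ p', p' ≠ p → t p' = 1 := by
  have hneg : ∃ p, t p < 0 := by
    by_contra hc
    push Not at hc
    have : 0 ≤ ∏ p, t p := Finset.prod_nonneg fun p _ => hc p
    rw [h] at this; norm_num at this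
  obtain ⟨p, hp⟩ := hneg
  refine ⟨p, by linarith, ?_⟩
  have habs : ∀ q, |t q| ≤ 1 := fun q => abs_le.mpr ⟨by linarith [h1 q], h2 q⟩
  have hsplit : t p * ∏ q ∈ univ.erase p, t q = -(1 / 3) := by
    rw [Finset.mul_prod_erase _ _ (mem_univ p), h]
  intro p' hp'
  by_contra hne
  have hlt : |t p'| < 1 := by
    rcases lt_or_eq_of_le (habs p') with h3 | h3
    · exact h3
    · rcases abs_eq (by norm_num : (0 : ℝ) ≤ 1) |>.mp h3 with h4 | h4
      · exact absurd h4 hne
      · have := h1 p'; rw [h4] at this; norm_num at this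
  have hmem : p' ∈ univ.erase p := Finset.mem_erase.mpr ⟨hp', mem_univ _⟩
  have hsplit2 : ∏ q ∈ univ.erase p, t q = t p' * ∏ q ∈ (univ.erase p).erase p', t q :=
    (Finset.mul_prod_erase _ _ hmem).symm
  have hrest : |∏ q ∈ (univ.erase p).erase p', t q| ≤ 1 := by
    rw [Finset.abs_prod]
    exact Finset.prod_le_one (fun q _ => abs_nonneg _) fun q _ => habs q
  have hA : |∏ q ∈ univ.erase p, t q| < 1 := by
    rw [hsplit2, abs_mul]
    calc |t p'| * |∏ q ∈ (univ.erase p).erase p', t q| ≤ |t p'| * 1 :=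
          mul_le_mul_of_nonneg_left hrest (abs_nonneg _)
      _ < 1 := by rw [mul_one]; exact hlt
  have hpabs : |t p| ≤ 1 / 3 := abs_le.mpr ⟨h1 p, by linarith⟩
  have h5 : |t p * ∏ q ∈ univ.erase p, t q| = 1 / 3 := by rw [hsplit]; norm_num
  rw [abs_mul] at h5
  have h6 : 0 < |t p| := abs_pos.mpr hp.ne
  nlinarith [abs_nonneg (∏ q ∈ univ.erase p, t q)]

/-- **HALF.** -/
theorem half {K : ℕ} (W : Fin K → M3 → M3) (hW : ∀ p O, SO O → SO (W p O))
    (hprod : ∀ O O', SO O → SO O' →
      (O.transpose * O').trace / 3 = ∏ p, ((W p O).transpose * W p O').trace / 3) :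
    ∃ p, ∀ p', p' ≠ p → ∀ O O', SO O → SO O' → W p' O = W p' O' := by
  have sep : ∀ {O P}, E O P → ∃ p, W p O ≠ W p P ∧ ∀ p', p' ≠ p → W p' O = W p' P := by
    intro O P h
    have h1 := hprod O P h.1 h.2.1
    rw [h.2.2] at h1
    obtain ⟨p, hp, hp'⟩ := prod_third (fun p => ((W p O).transpose * W p P).trace / 3)
      (fun p => by have := ((hW p O h.1).tr.mul (hW p P h.2.1)).le_tr; linarith)
      (fun p => by have := ((hW p O h.1).tr.mul (hW p P h.2.1)).tr_le; linarith)
      (by rw [← h1]; norm_num)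
    refine ⟨p, fun hc => ?_, fun p' hne => ?_⟩
    · rw [hc, (hW p P h.2.1).symm', tr3] at hp; norm_num at hp
    · exact (hW p' O h.1).eq_of (hW p' P h.2.1) (by have := hp' p' hne; linarith)
  -- triangles
  have tri : ∀ {O P Q p}, E O Q → E P Q →
      (W p O ≠ W p P ∧ ∀ p', p' ≠ p → W p' O = W p' P) →
      (W p O ≠ W p Q ∧ ∀ p', p' ≠ p → W p' O = W p' Q) := by
    intro O P Q p h1 h2 hp
    obtain ⟨q, hq, hq'⟩ := sep h1
    obtain ⟨r, hr, hr'⟩ := sep h2
    have hqp : q = p := by
      by_contra hne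
      -- `W q` separates `O`, `Q`, not `O`, `P`, hence `P`, `Q`; so `q = r`
      have e1 : W q P ≠ W q Q := by rw [← hp.2 q hne]; exact hq
      have e2 : q = r := by
        by_contra h3; exact e1 (hr' q h3)
      have e3 : W p P ≠ W p Q := by
        rw [← hq' p (Ne.symm hne)]; exact hp.1.symm
      have e4 : p = r := by
        by_contra h3; exact e3 (hr' p h3)
      exact hne (e2.trans e4.symm)
    rw [← hqp]; exact ⟨hq, hq'⟩
  have turn : ∀ {O P P' p}, E O P → E O P' →
      (W p O ≠ W p P ∧ ∀ p', p' ≠ p → W p' O = W p' P) →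
      (W p O ≠ W p P' ∧ ∀ p', p' ≠ p → W p' O = W p' P') := by
    intro O P P' p h h' hp
    obtain ⟨Q, hQ, hPQ, hPQ'⟩ := third' h h'
    exact tri h' hPQ'.symm (tri hQ hPQ hp)
  have flip : ∀ {O P p}, (W p O ≠ W p P ∧ ∀ p', p' ≠ p → W p' O = W p' P) →
      (W p P ≠ W p O ∧ ∀ p', p' ≠ p → W p' P = W p' O) := fun hp =>
    ⟨hp.1.symm, fun p' h => (hp.2 p' h).symm⟩
  have one : SO (1 : M3) := ⟨by simp, by simp⟩
  obtain ⟨D, hD, -⟩ := common' one one
  obtain ⟨p, hp⟩ := sep hD
  refine ⟨p, fun p' hp' O O' hO hO' => ?_⟩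
  -- every neighbour pair `(O, P)` is separated by `p` only
  have main : ∀ O P, E O P → (W p O ≠ W p P ∧ ∀ p', p' ≠ p → W p' O = W p' P) := by
    intro O P h
    obtain ⟨Q, hQ1, hQ2⟩ := common' one h.1
    exact turn hQ2 h (flip (turn hQ1.symm hQ2.symm (flip (turn hD hQ1 hp))))
  obtain ⟨P, h1, h2⟩ := common' hO hO'
  rw [(main _ _ h1).2 p' hp', (main _ _ h2).2 p' hp']

end T5H
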